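import Pool.Agent.Q185.PC.NoPath
import Pool.Agent.Q285.PC.Janis
import Pool.Agent.Q285.PC.Wall
import Pool.Agent.Q285.PC.Sharp
import Pool.Agent.Q285.PC.Space
import Pool.Agent.Q285.PC.Pi
import Pool.Agent.Q175.PC.S2
import Pool.Agent.Q175.PC.S5
import Pool.Agent.Q175.PC.S8

/-!
A Peano continuum of infinite dimension all of whose subsets have trivial homotopy groups in all
degrees at least two.
-/

set_option autoImplicit false

namespace Pool.Agent.Results.MP_ac4f45_gt.PseudoArcPowerCollar

/-- The covering dimension of `X` is at most `n`: every finite open cover has a finite open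
refinement such that each point lies in at most `n + 1` members. -/
def DimLE (X : Type) [TopologicalSpace X] (n : ℕ) : Prop :=
  ∀ (r : ℕ) (U : Fin r → Set X), (∀ i, IsOpen (U i)) → (⋃ i, U i) = Set.univ →
    ∃ (s : ℕ) (V : Fin s → Set X), (∀ j, IsOpen (V j)) ∧ (⋃ j, V j) = Set.univ ∧
      (∀ j, ∃ i, V j ⊆ U i) ∧ ∀ x : X, {j : Fin s | x ∈ V j}.ncard ≤ n + 1

/-- The homotopy group of degree `m` of the subspace `M` is trivial for all base points. -/
def TrivialPi {X : Type} [TopologicalSpace X] (M : Set X) (m : ℕ) : Prop :=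
  ∀ x : M, Subsingleton (HomotopyGroup (Fin m) M x)

/-- Property (A): every subset has a trivial homotopy group of some degree at least `n`. -/
def PropertyA (X : Type) [TopologicalSpace X] (n : ℕ) : Prop :=
  ∀ M : Set X, ∃ m, n ≤ m ∧ TrivialPi M m

/-- Property (B): every subset has trivial homotopy groups in all degrees at least `n`. -/
def PropertyB (X : Type) [TopologicalSpace X] (n : ℕ) : Prop :=
  ∀ (M : Set X) (m : ℕ), n ≤ m → TrivialPi M m

/-- There is a Peano continuum (a compact, connected, locally connected metric space) of infinite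
covering dimension which has the properties (A) and (B) for all `n ≥ 2`: all homotopy groups of
degree at least two of all of its subsets are trivial. -/
theorem result :
    ∃ (X : Type) (_ : MetricSpace X), CompactSpace X ∧ ConnectedSpace X ∧
      LocallyConnectedSpace X ∧ (∀ n : ℕ, ¬ DimLE X n) ∧
      ∀ n : ℕ, 2 ≤ n → PropertyA X n ∧ PropertyB X n := by
  obtain ⟨P, hPm, hPc, hPn, hPt, hPp⟩ := Pool.Agent.Q185.PC.s9
  let : MetricSpace (ℕ → P) := TopologicalSpace.metrizableSpaceMetric (ℕ → P)
  have hnp : Pool.Agent.Q185.PC.NoPaths (ℕ → P) := by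
    intro γ t
    funext n
    exact hPp ⟨fun t => γ t n, (continuous_apply n).comp γ.continuous⟩ t
  have hne : Nonempty (ℕ → P) := inferInstance
  obtain ⟨X, τ, O, c, ι, hX, hch, hι, hinj⟩ := Pool.Agent.Q285.PC.Space.s7 (ℕ → P) hnp
  obtain ⟨hm, hc1, hc2, hc3⟩ := hX
  let : MetricSpace X := TopologicalSpace.metrizableSpaceMetric X
  have hB : ∀ (M : Set X) (m : ℕ), 2 ≤ m → TrivialPi M m :=
    Pool.Agent.Q285.PC.Pm.s6 Pool.Agent.Q285.PC.Jan.s1 Pool.Agent.Q175.PC.s2
      Pool.Agent.Q285.PC.Wl.s3 Pool.Agent.Q285.PC.Shp.s4 Pool.Agent.Q175.PC.s5 X O c hch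
  refine ⟨X, inferInstance, hc1, hc2, hc3, ?_, fun n hn => ⟨fun M => ⟨n, le_rfl, hB M n hn⟩,
    fun M m hm => hB M m (hn.trans hm)⟩⟩
  exact Pool.Agent.Q175.PC.s8 P X ι hι hinj

end Pool.Agent.Results.MP_ac4f45_gt.PseudoArcPowerCollar
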